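import Pool.Agent.W236.SC.Defs2
import Pool.Agent.W236.SC.LDefs

set_option autoImplicit false
set_option linter.unusedSectionVars false
set_option linter.style.haveILetI false

namespace Pool.Agent.W12.SC

open Pool.Agent.W236.SC
open Pool.Agent.W236

universe u

variable {B : Type*} [Fintype B] [DecidableEq B] {M : CoxeterMatrix B}
variable {W : Type u} [Group W] (cs : CoxeterSystem M W)

/-- the interval below `ω` -/
abbrev Iv (ω : W) : Type u := {v : W // WLe cs v ω}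

/-- the weak order on the interval -/
@[reducible] def wpo (hW : S_WEAK cs) (ω : W) : PartialOrder (Iv cs ω) where
  le a b := WLe cs a.1 b.1
  le_refl a := hW.2.1 a.1
  le_trans a b c := hW.2.2.1 _ _ _
  le_antisymm a b h1 h2 := Subtype.ext (hW.2.2.2.1 _ _ h1 h2)

lemma len_lt {u v : W} (h : WLe cs u v) (hne : u ≠ v) : cs.length u < cs.length v := by
  unfold WLe at h
  have h1 : cs.length (u⁻¹ * v) ≠ 0 := by
    intro h0
    rw [cs.length_eq_zero_iff] at h0
    apply hne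
    exact (inv_mul_eq_one.mp h0)
  omega

lemma le_mul_simple {u : W} {s : B} (h : cs.length u < cs.length (u * cs.simple s)) :
    WLe cs u (u * cs.simple s) := by
  unfold WLe
  rw [inv_mul_cancel_left, cs.length_simple]
  rcases cs.length_mul_simple u s with h1 | h1 <;> omega

lemma len_succ {u : W} {s : B} (h : cs.length u < cs.length (u * cs.simple s)) :
    cs.length (u * cs.simple s) = cs.length u + 1 := by
  rcases cs.length_mul_simple u s with h1 | h1 <;> omega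

lemma cov_iff (hW : S_WEAK cs) (ω : W) (a b : Iv cs ω) :
    @CovBy _ (wpo cs hW ω).toLT a b ↔
      ∃ s, b.1 = a.1 * cs.simple s ∧ cs.length a.1 < cs.length b.1 := by
  letI := wpo cs hW ω
  constructor
  · rintro ⟨h1, h2⟩
    have hle : WLe cs a.1 b.1 := h1.le
    have hne : a.1 ≠ b.1 := fun h => h1.ne (Subtype.ext h)
    obtain ⟨s, hs1, hs2⟩ := hW.2.2.2.2.1 _ _ hle hne
    have hcω : WLe cs (a.1 * cs.simple s) ω := hW.2.2.1 _ _ _ hs2 b.2
    have hac : a < (⟨a.1 * cs.simple s, hcω⟩ : Iv cs ω) := by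
      apply lt_of_le_of_ne
      · exact le_mul_simple cs hs1
      · intro h
        have := congrArg (fun z : Iv cs ω => cs.length z.1) h
        simp only at this
        omega
    have hcb : (⟨a.1 * cs.simple s, hcω⟩ : Iv cs ω) ≤ b := hs2
    rcases eq_or_lt_of_le hcb with h | h
    · refine ⟨s, ?_, ?_⟩
      · rw [← h]
      · rw [← h]; exact hs1
    · exact absurd h (h2 hac)
  · rintro ⟨s, h1, h2⟩
    have h3 : WLe cs a.1 b.1 := by
      rw [h1]
      rw [h1] at h2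
      exact le_mul_simple cs h2
    have hlen : cs.length b.1 = cs.length a.1 + 1 := by
      rw [h1]
      rw [h1] at h2
      exact len_succ cs h2
    refine ⟨?_, ?_⟩
    · apply lt_of_le_of_ne
      · exact h3
      · intro h
        rw [h] at h2
        exact lt_irrefl _ h2
    · intro c hac hcb
      have h4 := len_lt cs (show WLe cs a.1 c.1 from hac.le) (fun h => hac.ne (Subtype.ext h))
      have h5 := len_lt cs (show WLe cs c.1 b.1 from hcb.le) (fun h => hcb.ne (Subtype.ext h))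
      omega

lemma one_le (v : W) : WLe cs 1 v := by
  unfold WLe
  simp

lemma exK (hKEX : S_KEX cs) {n : ℕ} {q : ℕ → B} {ω : W} (hU : ∃ U, IsFac cs n q ω U)
    (v : Iv cs ω) : ∃ U, IsK cs n q ω v.1 U := hKEX n q ω v.1 hU v.2

/-- the facet of an element of the interval -/
noncomputable def Kf (hKEX : S_KEX cs) {n : ℕ} {q : ℕ → B} {ω : W}
    (hU : ∃ U, IsFac cs n q ω U) (v : Iv cs ω) : Finset ℕ := (exK cs hKEX hU v).choose

lemma Kf_spec (hKEX : S_KEX cs) {n : ℕ} {q : ℕ → B} {ω : W}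
    (hU : ∃ U, IsFac cs n q ω U) (v : Iv cs ω) : IsK cs n q ω v.1 (Kf cs hKEX hU v) :=
  (exK cs hKEX hU v).choose_spec

lemma Kf_iff (hKEX : S_KEX cs) (hKUN : S_KUN cs) {n : ℕ} {q : ℕ → B} {ω : W}
    (hU : ∃ U, IsFac cs n q ω U) (v : Iv cs ω) (U : Finset ℕ) :
    Kf cs hKEX hU v = U ↔ IsK cs n q ω v.1 U := by
  constructor
  · intro h
    rw [← h]
    exact Kf_spec cs hKEX hU v
  · intro h
    exact hKUN n q ω v.1 _ _ (Kf_spec cs hKEX hU v) h

lemma jn_iff (hW : S_WEAK cs) (ω : W) (x y j : Iv cs ω) :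
    @IsLUB _ (wpo cs hW ω).toLE {x, y} j ↔ IsJn cs ω x.1 y.1 j.1 := by
  letI := wpo cs hW ω
  constructor
  · intro h
    refine ⟨j.2, ?_, ?_, ?_⟩
    · exact h.1 (by simp)
    · exact h.1 (by simp)
    · intro u hu hx hy
      exact h.2 (show (⟨u, hu⟩ : Iv cs ω) ∈ upperBounds {x, y} by
        rw [mem_upperBounds]
        intro z hz
        rcases hz with rfl | rfl
        · exact hx
        · exact hy)
  · rintro ⟨_, h1, h2, h3⟩
    refine ⟨?_, ?_⟩
    · rw [mem_upperBounds]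
      intro z hz
      rcases hz with rfl | rfl
      · exact h1
      · exact h2
    · intro u hu
      rw [mem_upperBounds] at hu
      exact h3 u.1 u.2 (hu x (by simp)) (hu y (by simp))

lemma mt_iff (hW : S_WEAK cs) (ω : W) (x y j : Iv cs ω) :
    @IsGLB _ (wpo cs hW ω).toLE {x, y} j ↔ IsMt cs ω x.1 y.1 j.1 := by
  letI := wpo cs hW ω
  constructor
  · intro h
    refine ⟨j.2, ?_, ?_, ?_⟩
    · exact h.1 (by simp)
    · exact h.1 (by simp)
    · intro u hu hx hy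
      exact h.2 (show (⟨u, hu⟩ : Iv cs ω) ∈ lowerBounds {x, y} by
        rw [mem_lowerBounds]
        intro z hz
        rcases hz with rfl | rfl
        · exact hx
        · exact hy)
  · rintro ⟨_, h1, h2, h3⟩
    refine ⟨?_, ?_⟩
    · rw [mem_lowerBounds]
      intro z hz
      rcases hz with rfl | rfl
      · exact h1
      · exact h2
    · intro u hu
      rw [mem_lowerBounds] at hu
      exact h3 u.1 u.2 (hu x (by simp)) (hu y (by simp))

lemma alt_one (s t : B) : alt cs s t 1 = cs.simple s := by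
  simp [alt]

/-- a chain of contracted edges in a polygon -/
lemma chain (hW : S_WEAK cs) {n : ℕ} {q : ℕ → B} {ω : W} (hKEX : S_KEX cs) (hKUN : S_KUN cs)
    (hU : ∃ U, IsFac cs n q ω U) (b : W) (s t : B) (j m : ℕ) (U : Finset ℕ)
    (hlen : ∀ k, k ≤ m → cs.length (b * alt cs s t k) = cs.length b + k)
    (hle : ∀ k, k ≤ m → WLe cs (b * alt cs s t k) ω)
    (hK : ∀ k, j ≤ k → k ≤ m → IsK cs n q ω (b * alt cs s t k) U) (hjm : j ≤ m) :
    @Relation.ReflTransGen (Iv cs ω)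
      (@Lt.CC (Iv cs ω) (wpo cs hW ω) (Finset ℕ) (Kf cs hKEX hU))
      ⟨b * alt cs s t j, hle j hjm⟩ ⟨b * alt cs s t m, hle m le_rfl⟩ := by
  letI := wpo cs hW ω
  have key : ∀ i, j ≤ i → ∀ him : i ≤ m, Relation.ReflTransGen (Lt.CC (Kf cs hKEX hU))
      (⟨b * alt cs s t j, hle j hjm⟩ : Iv cs ω) ⟨b * alt cs s t i, hle i him⟩ := by
    intro i hi
    induction i, hi using Nat.le_induction with
    | base => intro him; exact Relation.ReflTransGen.refl
    | succ i hi ih =>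
      intro him
      refine (ih (by omega)).tail ?_
      refine ⟨?_, ?_⟩
      · rw [cov_iff]
        refine ⟨if Even i then s else t, ?_, ?_⟩
        · show b * alt cs s t (i + 1) = b * alt cs s t i * _
          rw [alt, mul_assoc]
        · show cs.length (b * alt cs s t i) < cs.length (b * alt cs s t (i + 1))
          rw [hlen i (by omega), hlen (i + 1) him]
          omega
      · have h1 := (Kf_iff cs hKEX hKUN hU ⟨b * alt cs s t i, hle i (by omega)⟩ U).mpr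
          (hK i hi (by omega))
        have h2 := (Kf_iff cs hKEX hKUN hU ⟨b * alt cs s t (i + 1), hle (i + 1) him⟩ U).mpr
          (hK (i + 1) (by omega) him)
        rw [h1, h2]
  exact key m hjm le_rfl

theorem polyCong (hM : ∀ i j, M i j ≠ 0) (hKEX : S_KEX cs) (hKUN : S_KUN cs) (hW : S_WEAK cs)
    (hP : S_POLY cs) (h1 : S_PF1 cs) (h2 : S_PF2 cs) (hConn : S_CONN cs)
    (n : ℕ) (q : ℕ → B) (ω : W) (hA : AltM M n q) (hU : ∃ U, IsFac cs n q ω U) :
    @Lt.PolyCong (Iv cs ω) (wpo cs hW ω) (Finset ℕ) (Kf cs hKEX hU) := by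
  letI := wpo cs hW ω
  refine ⟨?_, ?_, ?_⟩
  · -- joins
    intro x y₁ y₂ hy₁ hy₂
    obtain ⟨s, hs1, hs2⟩ := (cov_iff cs hW ω x y₁).mp hy₁
    obtain ⟨t, ht1, ht2⟩ := (cov_iff cs hW ω x y₂).mp hy₂
    by_cases hst : s = t
    · refine ⟨y₁, ?_, fun _ => Relation.ReflTransGen.refl⟩
      have : y₂ = y₁ := Subtype.ext (by rw [hs1, ht1, hst])
      rw [this]
      simp
    · have hs3 : cs.length x.1 < cs.length (x.1 * cs.simple s) := by rw [← hs1]; exact hs2
      have ht3 : cs.length x.1 < cs.length (x.1 * cs.simple t) := by rw [← ht1]; exact ht2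
      obtain ⟨ha, hb, hc, hd⟩ := hP.1 x.1 s t hst (hM s t) hs3 ht3
      obtain ⟨ha', hb', hc', hd'⟩ := hP.1 x.1 t s (Ne.symm hst) (hM t s) ht3 hs3
      have hMst : M t s = M s t := M.symmetric t s
      have hm1 : 1 ≤ M s t := Nat.one_le_iff_ne_zero.mpr (hM s t)
      have hjω : WLe cs (x.1 * alt cs s t (M s t)) ω :=
        hd ω (by rw [← hs1]; exact y₁.2) (by rw [← ht1]; exact y₂.2)
      have e1 : y₁.1 = x.1 * alt cs s t 1 := by rw [alt_one, hs1]
      have e2 : y₂.1 = x.1 * alt cs t s 1 := by rw [alt_one, ht1]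
      refine ⟨⟨x.1 * alt cs s t (M s t), hjω⟩, ?_, ?_⟩
      · rw [jn_iff]
        refine ⟨hjω, ?_, ?_, ?_⟩
        · rw [e1]; exact hb 1 _ hm1 le_rfl
        · rw [e2]
          show WLe cs (x.1 * alt cs t s 1) (x.1 * alt cs s t (M s t))
          rw [hc, ← hMst]
          exact hb' 1 _ (by rw [hMst]; exact hm1) le_rfl
        · intro u _ hx hy
          exact hd u (by rw [← hs1]; exact hx) (by rw [← ht1]; exact hy)
      · intro hK
        have hKx := Kf_spec cs hKEX hU x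
        have hKy₁ := Kf_spec cs hKEX hU y₁
        have hKy₂ := (Kf_iff cs hKEX hKUN hU y₂ _).mp hK.symm
        have hPF := h1 n q ω x.1 t s (Kf cs hKEX hU x) (Kf cs hKEX hU y₁) hA (Ne.symm hst) (hM t s)
          ht3 hs3 (by rw [hMst, ← hc]; exact hjω) hKx (by rw [← ht1]; exact hKy₂)
          (by rw [← hs1]; exact hKy₁)
        have hch := chain cs hW hKEX hKUN hU x.1 s t 1 (M s t) (Kf cs hKEX hU y₁) ha
          (fun k hk => hW.2.2.1 _ _ _ (hb k _ hk le_rfl) hjω)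
          (fun k hk1 hk2 => hPF k hk1 (by rw [hMst]; exact hk2)) hm1
        have e3 : y₁ = ⟨x.1 * alt cs s t 1, by rw [← e1]; exact y₁.2⟩ := Subtype.ext e1
        rw [e3]
        exact hch
  · -- meets
    intro x y₁ y₂ hy₁ hy₂
    obtain ⟨s, hs1, hs2⟩ := (cov_iff cs hW ω y₁ x).mp hy₁
    obtain ⟨t, ht1, ht2⟩ := (cov_iff cs hW ω y₂ x).mp hy₂
    have es : y₁.1 = x.1 * cs.simple s := by rw [hs1, cs.simple_mul_simple_cancel_right]
    have et : y₂.1 = x.1 * cs.simple t := by rw [ht1, cs.simple_mul_simple_cancel_right]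
    by_cases hst : s = t
    · refine ⟨y₁, ?_, fun _ => Relation.ReflTransGen.refl⟩
      have : y₂ = y₁ := Subtype.ext (by rw [es, et, hst])
      rw [this]
      simp
    · have hs3 : cs.length (x.1 * cs.simple s) < cs.length x.1 := by rw [← es]; exact hs2
      have ht3 : cs.length (x.1 * cs.simple t) < cs.length x.1 := by rw [← et]; exact ht2
      obtain ⟨b, hbs, hbt, hxb, hmin⟩ := hP.2 x.1 s t hst (hM s t) hs3 ht3
      -- a symmetric statement
      have key : ∀ p r : B, p ≠ r → cs.length b < cs.length (b * cs.simple p) →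
          cs.length b < cs.length (b * cs.simple r) → x.1 = b * alt cs p r (M p r) →
          y₂.1 = b * alt cs p r (M p r - 1) → y₁.1 = b * alt cs r p (M p r - 1) →
          ∃ m, IsGLB {y₁, y₂} m ∧ (Kf cs hKEX hU x = Kf cs hKEX hU y₂ →
            Relation.ReflTransGen (Lt.CC (Kf cs hKEX hU)) m y₁) := by
        intro p r hpr hbp hbr hx hy2 hy1
        obtain ⟨ha, hb, hc, hd⟩ := hP.1 b p r hpr (hM p r) hbp hbr
        obtain ⟨ha', hb', hc', hd'⟩ := hP.1 b r p (Ne.symm hpr) (hM r p) hbr hbp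
        have hMpr : M r p = M p r := M.symmetric r p
        have hm1 : 1 ≤ M p r := Nat.one_le_iff_ne_zero.mpr (hM p r)
        have hxω : WLe cs (b * alt cs p r (M p r)) ω := by rw [← hx]; exact x.2
        have hxω' : WLe cs (b * alt cs r p (M p r)) ω := by
          have : alt cs r p (M p r) = alt cs p r (M p r) := hc.symm
          rw [this]; exact hxω
        have hle' : ∀ k, k ≤ M p r - 1 → WLe cs (b * alt cs r p k) ω := fun k hk =>
          hW.2.2.1 _ _ _ (hb' k (M p r) (by omega) (by omega)) hxω'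
        have hbω : WLe cs b ω := by
          have := hle' 0 (Nat.zero_le _)
          simpa [alt] using this
        refine ⟨⟨b, hbω⟩, ?_, ?_⟩
        · rw [mt_iff]
          refine ⟨hbω, ?_, ?_, ?_⟩
          · rw [hy1]
            have := hb' 0 (M p r - 1) (Nat.zero_le _) (by omega)
            simpa [alt] using this
          · rw [hy2]
            have := hb 0 (M p r - 1) (Nat.zero_le _) (by omega)
            simpa [alt] using this
          · intro u _ hu1 hu2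
            exact hmin u (by rw [← es]; exact hu1) (by rw [← et]; exact hu2)
        · intro hK
          have hKx := Kf_spec cs hKEX hU x
          have hKy₁ := Kf_spec cs hKEX hU y₁
          have hKy₂ := (Kf_iff cs hKEX hKUN hU y₂ _).mp hK.symm
          have hPF := h2 n q ω b p r (Kf cs hKEX hU x) (Kf cs hKEX hU y₁) hA hpr (hM p r)
            hbp hbr hxω (by rw [← hx]; exact hKx) (by rw [← hy2]; exact hKy₂)
            (by rw [← hy1]; exact hKy₁)
          have hch := chain cs hW hKEX hKUN hU b r p 0 (M p r - 1) (Kf cs hKEX hU y₁)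
            (fun k hk => ha' k (by omega)) hle' (fun k _ hk2 => hPF k hk2) (Nat.zero_le _)
          have e3 : y₁ = ⟨b * alt cs r p (M p r - 1), by rw [← hy1]; exact y₁.2⟩ := Subtype.ext hy1
          have e4 : (⟨b, hbω⟩ : Iv cs ω) = ⟨b * alt cs r p 0, hle' 0 (Nat.zero_le _)⟩ :=
            Subtype.ext (by simp [alt])
          rw [e4]
          conv => rhs; rw [e3]
          exact hch
      have hm2 : 1 ≤ M s t := Nat.one_le_iff_ne_zero.mpr (hM s t)
      have hMts : M t s = M s t := M.symmetric t s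
      obtain ⟨_, _, hc, _⟩ := hP.1 b s t hst (hM s t) hbs hbt
      have hxb' : x.1 = b * alt cs t s (M s t) := by rw [hxb, hc]
      have hpred : M s t = (M s t - 1) + 1 := by omega
      have f1 : x.1 = b * alt cs s t (M s t - 1) * cs.simple (if Even (M s t - 1) then s else t) := by
        have h5 : alt cs s t (M s t) =
            alt cs s t (M s t - 1) * cs.simple (if Even (M s t - 1) then s else t) := by
          conv_lhs => rw [hpred]
          rfl
        rw [hxb, h5, mul_assoc]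
      have f2 : x.1 = b * alt cs t s (M s t - 1) * cs.simple (if Even (M s t - 1) then t else s) := by
        have h5 : alt cs t s (M s t) =
            alt cs t s (M s t - 1) * cs.simple (if Even (M s t - 1) then t else s) := by
          conv_lhs => rw [hpred]
          rfl
        rw [hxb', h5, mul_assoc]
      by_cases hev : Even (M s t - 1)
      · rw [if_pos hev] at f1 f2
        apply key t s (Ne.symm hst) hbt hbs
        · rw [hMts]; exact hxb'
        · rw [hMts, et, f2, cs.simple_mul_simple_cancel_right]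
        · rw [hMts, es, f1, cs.simple_mul_simple_cancel_right]
      · rw [if_neg hev] at f1 f2
        apply key s t hst hbs hbt hxb
        · rw [et, f1, cs.simple_mul_simple_cancel_right]
        · rw [es, f2, cs.simple_mul_simple_cancel_right]
  · -- connectedness
    intro x y hK
    have hKx := Kf_spec cs hKEX hU x
    have hKy := (Kf_iff cs hKEX hKUN hU y _).mp hK.symm
    have h3 := hConn n q ω _ x.1 y.1 x.2 y.2 hKx hKy
    have key : ∀ a b : W, Relation.EqvGen (CE cs n q ω (Kf cs hKEX hU x)) a b →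
        a = b ∨ ∃ (ha : WLe cs a ω) (hb : WLe cs b ω),
          Relation.EqvGen (Lt.CC (Kf cs hKEX hU)) (⟨a, ha⟩ : Iv cs ω) ⟨b, hb⟩ := by
      intro a b hab
      induction hab with
      | rel a b h =>
        right
        obtain ⟨hbω, hKa, hKb, s, hs, hlen⟩ := h
        have hab : WLe cs a b := by
          rw [hs]; rw [hs] at hlen; exact le_mul_simple cs hlen
        have haω : WLe cs a ω := hW.2.2.1 _ _ _ hab hbω
        refine ⟨haω, hbω, Relation.EqvGen.rel _ _ ⟨?_, ?_⟩⟩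
        · rw [cov_iff]
          exact ⟨s, hs, hlen⟩
        · rw [(Kf_iff cs hKEX hKUN hU ⟨a, haω⟩ _).mpr hKa,
            (Kf_iff cs hKEX hKUN hU ⟨b, hbω⟩ _).mpr hKb]
      | refl a => left; rfl
      | symm a b _ ih =>
        rcases ih with ih | ⟨ha, hb, ih⟩
        · left; exact ih.symm
        · right; exact ⟨hb, ha, ih.symm⟩
      | trans a b c _ _ ih1 ih2 =>
        rcases ih1 with ih1 | ⟨ha, hb, ih1⟩
        · rw [ih1]; exact ih2
        · rcases ih2 with ih2 | ⟨hb', hc, ih2⟩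
          · rw [← ih2]; right; exact ⟨ha, hb, ih1⟩
          · right; exact ⟨ha, hc, ih1.trans _ _ _ ih2⟩
    rcases key _ _ h3 with h | ⟨ha, hb, h⟩
    · have : x = y := Subtype.ext h
      rw [this]
      exact Relation.EqvGen.refl _
    · exact h

theorem lc [Finite W] (hAT : Lt.S_AT.{u, 0}) (hM : ∀ i j, M i j ≠ 0) (_hB : BaseF cs)
    (hKEX : S_KEX cs) (hKUN : S_KUN cs) (hW : S_WEAK cs) (hP : S_POLY cs) (h1 : S_PF1 cs)
    (h2 : S_PF2 cs) (hConn : S_CONN cs) : S_LC cs := by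
  intro n q ω hA hU
  letI := wpo cs hW ω
  have hL : Lt.LatCongr (Kf cs hKEX hU) :=
    hAT (Iv cs ω) (Finset ℕ) (Kf cs hKEX hU)
      ⟨⟨1, one_le cs ω⟩, fun x => one_le cs x.1⟩ ⟨⟨ω, hW.2.1 ω⟩, fun x => x.2⟩
      (polyCong cs hM hKEX hKUN hW hP h1 h2 hConn n q ω hA hU)
  refine ⟨?_, ?_, ?_, ?_⟩
  · intro x y hx hy
    obtain ⟨j, hj⟩ := hL.join ⟨x, hx⟩ ⟨y, hy⟩
    exact ⟨j.1, (jn_iff cs hW ω _ _ _).mp hj⟩
  · intro x y hx hy
    obtain ⟨j, hj⟩ := hL.meet ⟨x, hx⟩ ⟨y, hy⟩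
    exact ⟨j.1, (mt_iff cs hW ω _ _ _).mp hj⟩
  · intro x y z a b U hx hy hz hKx hKy ha hb
    have e := hL.joinC ⟨x, hx⟩ ⟨y, hy⟩ ⟨z, hz⟩ ⟨a, ha.1⟩ ⟨b, hb.1⟩
      (by rw [(Kf_iff cs hKEX hKUN hU ⟨x, hx⟩ _).mpr hKx,
            (Kf_iff cs hKEX hKUN hU ⟨y, hy⟩ _).mpr hKy])
      ((jn_iff cs hW ω _ _ _).mpr ha) ((jn_iff cs hW ω _ _ _).mpr hb)
    refine ⟨Kf cs hKEX hU ⟨a, ha.1⟩, Kf_spec cs hKEX hU ⟨a, ha.1⟩, ?_⟩
    exact (Kf_iff cs hKEX hKUN hU ⟨b, hb.1⟩ _).mp e.symm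
  · intro x y z a b U hx hy hz hKx hKy ha hb
    have e := hL.meetC ⟨x, hx⟩ ⟨y, hy⟩ ⟨z, hz⟩ ⟨a, ha.1⟩ ⟨b, hb.1⟩
      (by rw [(Kf_iff cs hKEX hKUN hU ⟨x, hx⟩ _).mpr hKx,
            (Kf_iff cs hKEX hKUN hU ⟨y, hy⟩ _).mpr hKy])
      ((mt_iff cs hW ω _ _ _).mpr ha) ((mt_iff cs hW ω _ _ _).mpr hb)
    refine ⟨Kf cs hKEX hU ⟨a, ha.1⟩, Kf_spec cs hKEX hU ⟨a, ha.1⟩, ?_⟩
    exact (Kf_iff cs hKEX hKUN hU ⟨b, hb.1⟩ _).mp e.symm

theorem he [Finite W] (hHA : Lt.S_HA.{u, 0}) (hLC : S_LC cs) (hKEX : S_KEX cs) (hKUN : S_KUN cs)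
    (hW : S_WEAK cs) : S_HE cs := by
  intro n q ω hA U U' hSU hSU'
  have hU : ∃ U, IsFac cs n q ω U := by
    obtain ⟨x, _, hx⟩ := hSU
    exact ⟨U, hx.fac⟩
  obtain ⟨l1, l2, l3, l4⟩ := hLC n q ω hA hU
  letI := wpo cs hW ω
  have hL : Lt.LatCongr (Kf cs hKEX hU) := by
    refine ⟨?_, ?_, ?_, ?_⟩
    · intro x y
      obtain ⟨j, hj⟩ := l1 x.1 y.1 x.2 y.2
      exact ⟨⟨j, hj.1⟩, (jn_iff cs hW ω x y ⟨j, hj.1⟩).mpr hj⟩
    · intro x y
      obtain ⟨j, hj⟩ := l2 x.1 y.1 x.2 y.2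
      exact ⟨⟨j, hj.1⟩, (mt_iff cs hW ω x y ⟨j, hj.1⟩).mpr hj⟩
    · intro x y z a b hxy ha hb
      obtain ⟨V, hV1, hV2⟩ := l3 x.1 y.1 z.1 a.1 b.1 (Kf cs hKEX hU x) x.2 y.2 z.2
        (Kf_spec cs hKEX hU x) ((Kf_iff cs hKEX hKUN hU y _).mp hxy.symm)
        ((jn_iff cs hW ω _ _ _).mp ha) ((jn_iff cs hW ω _ _ _).mp hb)
      rw [(Kf_iff cs hKEX hKUN hU a _).mpr hV1, (Kf_iff cs hKEX hKUN hU b _).mpr hV2]
    · intro x y z a b hxy ha hb
      obtain ⟨V, hV1, hV2⟩ := l4 x.1 y.1 z.1 a.1 b.1 (Kf cs hKEX hU x) x.2 y.2 z.2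
        (Kf_spec cs hKEX hU x) ((Kf_iff cs hKEX hKUN hU y _).mp hxy.symm)
        ((mt_iff cs hW ω _ _ _).mp ha) ((mt_iff cs hW ω _ _ _).mp hb)
      rw [(Kf_iff cs hKEX hKUN hU a _).mpr hV1, (Kf_iff cs hKEX hKUN hU b _).mpr hV2]
  have hran : ∀ V, V ∈ Set.range (Kf cs hKEX hU) ↔ SA cs n q ω V := by
    intro V
    constructor
    · rintro ⟨x, hx⟩
      exact ⟨x.1, x.2, (Kf_iff cs hKEX hKUN hU x _).mp hx⟩
    · rintro ⟨x, hx, hKx⟩
      exact ⟨⟨x, hx⟩, (Kf_iff cs hKEX hKUN hU ⟨x, hx⟩ _).mpr hKx⟩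
  have hq : ∀ V V', Lt.qle (Kf cs hKEX hU) V V' ↔ Qle cs n q ω V V' := by
    intro V V'
    constructor
    · rintro ⟨x, y, j, hx, hy, hj, hKj⟩
      exact ⟨x.1, y.1, j.1, x.2, y.2, (Kf_iff cs hKEX hKUN hU x _).mp hx,
        (Kf_iff cs hKEX hKUN hU y _).mp hy, (jn_iff cs hW ω _ _ _).mp hj,
        (Kf_iff cs hKEX hKUN hU j _).mp hKj⟩
    · rintro ⟨x, y, j, hx, hy, hKx, hKy, hj, hKj⟩
      exact ⟨⟨x, hx⟩, ⟨y, hy⟩, ⟨j, hj.1⟩, (Kf_iff cs hKEX hKUN hU ⟨x, hx⟩ _).mpr hKx,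
        (Kf_iff cs hKEX hKUN hU ⟨y, hy⟩ _).mpr hKy,
        (jn_iff cs hW ω ⟨x, hx⟩ ⟨y, hy⟩ ⟨j, hj.1⟩).mpr hj,
        (Kf_iff cs hKEX hKUN hU ⟨j, hj.1⟩ _).mpr hKj⟩
  have hmain := hHA (Iv cs ω) (Finset ℕ) (Kf cs hKEX hU) hL U U' ((hran U).mpr hSU)
    ((hran U').mpr hSU')
  constructor
  · rintro ⟨h1, h2, h3⟩
    have hc : Lt.qcov (Kf cs hKEX hU) U U' := by
      refine ⟨(hq _ _).mpr h1, h2, ?_⟩
      intro c hc hc1 hc2
      exact h3 c ((hran c).mp hc) ((hq _ _).mp hc1) ((hq _ _).mp hc2)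
    obtain ⟨hne, x, y, hxy, hKx, hKy⟩ := hmain.mp hc
    refine ⟨hne, ?_⟩
    obtain ⟨t, ht1, ht2⟩ := (cov_iff cs hW ω x y).mp hxy
    refine ⟨x.1, t, ?_, ?_, ?_, ?_⟩
    · rw [← ht1]; exact ht2
    · rw [← ht1]; exact y.2
    · exact (Kf_iff cs hKEX hKUN hU x _).mp hKx
    · rw [← ht1]; exact (Kf_iff cs hKEX hKUN hU y _).mp hKy
  · rintro ⟨hne, z, t, h1, h2, h3, h4⟩
    have hzω : WLe cs z ω := hW.2.2.1 _ _ _ (le_mul_simple cs h1) h2
    obtain ⟨c1, c2, c3⟩ := hmain.mpr ⟨hne, ⟨z, hzω⟩, ⟨z * cs.simple t, h2⟩,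
      (cov_iff cs hW ω _ _).mpr ⟨t, rfl, h1⟩, (Kf_iff cs hKEX hKUN hU ⟨z, hzω⟩ _).mpr h3,
      (Kf_iff cs hKEX hKUN hU ⟨z * cs.simple t, h2⟩ _).mpr h4⟩
    refine ⟨(hq _ _).mp c1, c2, ?_⟩
    intro V hV h5 h6
    exact c3 V ((hran V).mpr hV) ((hq _ _).mpr h5) ((hq _ _).mpr h6)

end Pool.Agent.W12.SC
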